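import Pool.Agent.Helper55_DDQ.Stmts

/-!
# DDQ, module CHG: the change of coordinates keeps degree and irreducibility
-/

set_option autoImplicit false

namespace Pool.Agent.DDQ.H47

open MvPolynomial IntermediateField

/-- total degree of a substitution by polynomials of degree at most one -/
theorem totalDegree_aeval_le {R S : Type} [CommRing R] [CommRing S] [Algebra R S] {σ τ : Type}
    (f : σ → MvPolynomial τ S) (hf : ∀ i, (f i).totalDegree ≤ 1) (P : MvPolynomial σ R) :
    (aeval f P).totalDegree ≤ P.totalDegree := by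
  rw [aeval_def, eval₂_eq]
  refine totalDegree_finsetSum_le ?_
  intro d hd
  refine (totalDegree_mul _ _).trans ?_
  have h1 : (algebraMap R (MvPolynomial τ S) (coeff d P)).totalDegree = 0 := by
    rw [MvPolynomial.algebraMap_apply]
    exact totalDegree_C _
  rw [h1, zero_add]
  refine (totalDegree_finsetProd _ _).trans ?_
  refine le_trans (Finset.sum_le_sum fun i _ => ?_) (le_totalDegree hd)
  refine (totalDegree_pow _ _).trans ?_
  calc d i * (f i).totalDegree ≤ d i * 1 := Nat.mul_le_mul_left _ (hf i)
    _ = d i := mul_one _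

section lin

variable {K : Type} [Field K]

/-- the affine substitution -/
noncomputable def lin (x : Fin 3 → K) (e : Matrix (Fin 3) (Fin 3) K) :
    MvPolynomial (Fin 3) K →ₐ[K] MvPolynomial (Fin 3) K :=
  aeval (fun i => C (x i) + ∑ j, C (e i j) * X j)

/-- the inverse substitution -/
noncomputable def nil (x : Fin 3 → K) (e : Matrix (Fin 3) (Fin 3) K) :
    MvPolynomial (Fin 3) K →ₐ[K] MvPolynomial (Fin 3) K :=
  aeval (fun i => ∑ j, C (e i j) * (X j - C (x j)))

theorem lin_nil (x : Fin 3 → K) (e e' : Matrix (Fin 3) (Fin 3) K) (h : e' * e = 1) :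
    (lin x e).comp (nil x e') = AlgHom.id K _ := by
  refine algHom_ext fun i => ?_
  have h1 : nil x e' (X i) = ∑ j, C (e' i j) * (X j - C (x j)) := aeval_X _ _
  have h2 : ∀ j, lin x e (X j) = C (x j) + ∑ l, C (e j l) * X l := fun j => aeval_X _ _
  have h3 : ∀ c : K, lin x e (C c) = C c := fun c => aeval_C _ _
  rw [AlgHom.comp_apply, h1, map_sum, AlgHom.id_apply]
  have h4 : ∀ j, lin x e (C (e' i j) * (X j - C (x j))) =
      ∑ l, C (e' i j * e j l) * X l := by
    intro j
    rw [map_mul, map_sub, h2, h3, h3, add_sub_cancel_left, Finset.mul_sum]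
    refine Finset.sum_congr rfl fun l _ => ?_
    rw [C_mul, mul_assoc]
  rw [Finset.sum_congr rfl fun j _ => h4 j, Finset.sum_comm]
  have h5 : ∀ l, ∑ j, C (e' i j * e j l) * (X l : MvPolynomial (Fin 3) K) =
      C ((1 : Matrix (Fin 3) (Fin 3) K) i l) * X l := by
    intro l
    rw [← Finset.sum_mul, ← map_sum, ← h, Matrix.mul_apply]
  rw [Finset.sum_congr rfl fun l _ => h5 l, Finset.sum_eq_single i]
  · rw [Matrix.one_apply_eq, C_1, one_mul]
  · intro l _ hl
    rw [Matrix.one_apply_ne hl.symm, C_0, zero_mul]
  · intro hi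
    exact absurd (Finset.mem_univ i) hi

theorem nil_lin (x : Fin 3 → K) (e e' : Matrix (Fin 3) (Fin 3) K) (h : e * e' = 1) :
    (nil x e').comp (lin x e) = AlgHom.id K _ := by
  refine algHom_ext fun i => ?_
  have h1 : lin x e (X i) = C (x i) + ∑ l, C (e i l) * X l := aeval_X _ _
  have h2 : ∀ j, nil x e' (X j) = ∑ l, C (e' j l) * (X l - C (x l)) := fun j => aeval_X _ _
  have h3 : ∀ c : K, nil x e' (C c) = C c := fun c => aeval_C _ _
  rw [AlgHom.comp_apply, h1, map_add, h3, map_sum, AlgHom.id_apply]
  have h4 : ∀ j, nil x e' (C (e i j) * X j) =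
      ∑ l, C (e i j * e' j l) * (X l - C (x l)) := by
    intro j
    rw [map_mul, h2, h3, Finset.mul_sum]
    refine Finset.sum_congr rfl fun l _ => ?_
    rw [C_mul, mul_assoc]
  rw [Finset.sum_congr rfl fun j _ => h4 j, Finset.sum_comm]
  have h5 : ∀ l, ∑ j, C (e i j * e' j l) * ((X l : MvPolynomial (Fin 3) K) - C (x l)) =
      C ((1 : Matrix (Fin 3) (Fin 3) K) i l) * (X l - C (x l)) := by
    intro l
    rw [← Finset.sum_mul, ← map_sum, ← h, Matrix.mul_apply]
  rw [Finset.sum_congr rfl fun l _ => h5 l, Finset.sum_eq_single i]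
  · rw [Matrix.one_apply_eq, C_1, one_mul, add_sub_cancel]
  · intro l _ hl
    rw [Matrix.one_apply_ne hl.symm, C_0, zero_mul]
  · intro hi
    exact absurd (Finset.mem_univ i) hi

/-- the affine substitution is an automorphism -/
noncomputable def linE (x : Fin 3 → K) (e : Matrix (Fin 3) (Fin 3) K) (he : IsUnit e.det) :
    MvPolynomial (Fin 3) K ≃ₐ[K] MvPolynomial (Fin 3) K :=
  AlgEquiv.ofAlgHom (lin x e) (nil x e⁻¹) (lin_nil x e e⁻¹ (Matrix.nonsing_inv_mul e he))
    (nil_lin x e e⁻¹ (Matrix.mul_nonsing_inv e he))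

theorem linE_apply (x : Fin 3 → K) (e : Matrix (Fin 3) (Fin 3) K) (he : IsUnit e.det)
    (P : MvPolynomial (Fin 3) K) : linE x e he P = lin x e P := rfl

theorem lin_deg (x : Fin 3 → K) (e : Matrix (Fin 3) (Fin 3) K) (he : IsUnit e.det)
    (P : MvPolynomial (Fin 3) K) : (lin x e P).totalDegree = P.totalDegree := by
  apply le_antisymm
  · refine totalDegree_aeval_le _ (fun i => ?_) P
    refine (totalDegree_add _ _).trans (max_le ?_ ?_)
    · rw [totalDegree_C]
      exact Nat.zero_le _
    · refine totalDegree_finsetSum_le fun j _ => ?_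
      refine (totalDegree_mul _ _).trans ?_
      rw [totalDegree_C, totalDegree_X]
  · have h : nil x e⁻¹ (lin x e P) = P := by
      have := nil_lin x e e⁻¹ (Matrix.mul_nonsing_inv e he)
      exact congrArg (fun f : MvPolynomial (Fin 3) K →ₐ[K] MvPolynomial (Fin 3) K => f P) this
    calc P.totalDegree = (nil x e⁻¹ (lin x e P)).totalDegree := by rw [h]
      _ ≤ (lin x e P).totalDegree := by
        refine totalDegree_aeval_le _ (fun i => ?_) _
        refine totalDegree_finsetSum_le fun j _ => ?_
        refine (totalDegree_mul _ _).trans ?_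
        rw [totalDegree_C, zero_add]
        refine (totalDegree_sub _ _).trans (max_le ?_ ?_)
        · rw [totalDegree_X]
        · rw [totalDegree_C]
          exact Nat.zero_le _

end lin

/-- total degree after an injective map of the coefficients -/
theorem totalDegree_mapI {k K : Type} [Field k] [Field K] (f : k →+* K)
    (P : MvPolynomial (Fin 3) k) : (map f P).totalDegree = P.totalDegree := by
  unfold totalDegree
  rw [support_map_of_injective _ f.injective]

/-- an injective map of the coefficients reflects irreducibility -/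
theorem irr_of_map {k K : Type} [Field k] [Field K] (f : k →+* K)
    {P : MvPolynomial (Fin 3) k} (h : Irreducible (map f P)) : Irreducible P := by
  have hu : ∀ Q : MvPolynomial (Fin 3) k, IsUnit (map f Q) → IsUnit Q := by
    intro Q hQ
    rw [isUnit_iff_eq_C_of_isReduced] at hQ
    obtain ⟨r, hr, hrQ⟩ := hQ
    have h0 : (map f Q).totalDegree = 0 := by rw [hrQ, totalDegree_C]
    rw [totalDegree_mapI, totalDegree_eq_zero_iff_eq_C] at h0
    rw [h0]
    have h1 : coeff 0 Q ≠ 0 := by
      intro h2
      rw [h2, C_0] at h0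
      rw [h0, map_zero] at hrQ
      have h3 : r = 0 := by
        have := hrQ.symm
        rwa [C_eq_zero] at this
      rw [h3] at hr
      exact not_isUnit_zero hr
    exact (IsUnit.mk0 _ h1).map C
  refine ⟨fun hP => h.1 (hP.map (map f)), fun a b hab => ?_⟩
  have h2 := h.2 (a := map f a) (b := map f b) (by rw [hab, map_mul])
  exact h2.imp (hu a) (hu b)

/-- descent of divisibility along an extension of the field of coefficients -/
theorem dvd_of_map {k K : Type} [Field k] [Field K] [Algebra k K]
    {P Q : MvPolynomial (Fin 3) k} (h : map (algebraMap k K) P ∣ map (algebraMap k K) Q) :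
    P ∣ Q := by
  classical
  obtain ⟨π, hπ⟩ := (Algebra.linearMap k K).exists_leftInverse_of_injective
    (LinearMap.ker_eq_bot.2 (algebraMap k K).injective)
  have hπ1 : ∀ c : k, π (algebraMap k K c) = c := fun c =>
    congrArg (fun f : k →ₗ[k] k => f c) hπ
  have hπ2 : ∀ (c : k) (y : K), π (algebraMap k K c * y) = c * π y := by
    intro c y
    rw [← Algebra.smul_def, map_smul, smul_eq_mul]
  obtain ⟨R, hR⟩ := h
  let S : MvPolynomial (Fin 3) k :=
    ∑ d ∈ R.support, monomial d (π (coeff d R))
  have hS : ∀ d, coeff d S = π (coeff d R) := by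
    intro d
    change coeff d (∑ d ∈ R.support, monomial d (π (coeff d R))) = _
    rw [coeff_sum]
    simp only [coeff_monomial]
    rw [Finset.sum_ite_eq' R.support d]
    split_ifs with hd
    · rfl
    · rw [notMem_support_iff.1 hd, map_zero]
  refine ⟨S, ?_⟩
  ext d
  have h1 : coeff d (map (algebraMap k K) Q) = algebraMap k K (coeff d Q) := coeff_map _ _ _
  have h2 : coeff d Q = π (coeff d (map (algebraMap k K) Q)) := by
    rw [h1, hπ1]
  rw [h2, hR, coeff_mul, coeff_mul, map_sum]
  refine Finset.sum_congr rfl fun a _ => ?_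
  rw [coeff_map, hπ2, hS]

theorem shift_eq {k K : Type} [Field k] [Field K] [Algebra k K] (x : Fin 3 → K)
    (e : Matrix (Fin 3) (Fin 3) K) (P : MvPolynomial (Fin 3) k) :
    shift x e P = lin x e (map (algebraMap k K) P) := by
  unfold shift lin
  rw [aeval_map_algebraMap]

/-- CHG: the change of coordinates keeps degree and irreducibility. -/
theorem chg : ChgStmt := by
  intro k _ K F x e hF he
  have hFK : Irreducible (map (algebraMap k K) F) := by
    apply irr_of_map (algebraMap K (AlgebraicClosure k))
    rw [MvPolynomial.map_map]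
    exact hF
  refine ⟨?_, ?_, ?_⟩
  · rw [shift_eq, lin_deg x e he, totalDegree_mapI]
  · rw [shift_eq, ← linE_apply x e he]
    exact (MulEquiv.irreducible_iff (linE x e he)).2 hFK
  · intro P hP
    rw [shift_eq, shift_eq, ← linE_apply x e he, ← linE_apply x e he] at hP
    exact dvd_of_map ((map_dvd_iff (linE x e he)).1 hP)

end Pool.Agent.DDQ.H47
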