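import Pool.Agent.Helper55_DDQ.Stmts

/-!
# DDQ, module TAN: the tangent plane section
-/

set_option autoImplicit false

namespace Pool.Agent.DDQ.H47T

open MvPolynomial IntermediateField

section field

variable {K L : Type} [Field K] [Field L] [Algebra K L]

/-- `u` is not a rational function of `u ^ 2` -/
theorem not_mem_sq {u : L} (hu : Transcendental K u) : u ∉ adjoin K {u ^ 2} := by
  intro h
  rw [IntermediateField.mem_adjoin_simple_iff] at h
  obtain ⟨r, s, hrs⟩ := h
  have hs : Polynomial.aeval (u ^ 2) s ≠ 0 := by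
    intro h0
    rw [h0, div_zero] at hrs
    exact hu (hrs ▸ isAlgebraic_zero)
  have h1 : u * Polynomial.aeval (u ^ 2) s = Polynomial.aeval (u ^ 2) r :=
    ((div_eq_iff hs).1 hrs.symm).symm
  have hs0 : s ≠ 0 := by
    rintro rfl
    exact hs (map_zero _)
  have h2 : Polynomial.X * s.comp (Polynomial.X ^ 2) - r.comp (Polynomial.X ^ 2) = 0 := by
    refine (transcendental_iff.1 hu) _ ?_
    rw [map_sub, map_mul, Polynomial.aeval_X, Polynomial.aeval_comp, Polynomial.aeval_comp,
      map_pow, Polynomial.aeval_X, h1, sub_self]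
  have h3 := congrArg Polynomial.natDegree (sub_eq_zero.1 h2)
  have hs1 : s.comp (Polynomial.X ^ 2) ≠ 0 := by
    intro h0
    apply hs
    have := congrArg (Polynomial.aeval u) h0
    rwa [Polynomial.aeval_comp, map_pow, Polynomial.aeval_X, map_zero] at this
  rw [Polynomial.natDegree_X_mul hs1, Polynomial.natDegree_comp, Polynomial.natDegree_comp,
    Polynomial.natDegree_X_pow] at h3
  omega

theorem top_of {S T : Set L} (h : adjoin K (S ∪ T) = ⊤) : adjoin (adjoin K S) T = ⊤ := by
  rw [← restrictScalars_eq_top_iff (K := K), adjoin_adjoin_left]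
  exact h

theorem deg_sq {u : L} (hu : Transcendental K u) (htop : adjoin K {u} = ⊤) :
    Module.finrank (adjoin K {u ^ 2}) L = 2 := by
  have hmem : u ^ 2 ∈ adjoin K {u ^ 2} := mem_adjoin_simple_self K (u ^ 2)
  have h0 : Polynomial.aeval u (Polynomial.X ^ 2 -
      Polynomial.C (⟨u ^ 2, hmem⟩ : adjoin K {u ^ 2})) = 0 := by
    rw [map_sub, map_pow, Polynomial.aeval_X, Polynomial.aeval_C]
    exact sub_self _
  have hmon : (Polynomial.X ^ 2 - Polynomial.C (⟨u ^ 2, hmem⟩ : adjoin K {u ^ 2})).Monic :=
    Polynomial.monic_X_pow_sub_C _ two_ne_zero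
  have hint : IsIntegral (adjoin K {u ^ 2}) u := ⟨_, hmon, h0⟩
  have htopF : adjoin (adjoin K {u ^ 2}) {u} = ⊤ := by
    apply top_of
    rw [eq_top_iff, ← htop]
    exact adjoin.mono _ _ _ Set.subset_union_right
  have h1 : Module.finrank (adjoin K {u ^ 2}) L = (minpoly (adjoin K {u ^ 2}) u).natDegree := by
    rw [← IntermediateField.adjoin.finrank hint, htopF, finrank_top']
  have h2 : (minpoly (adjoin K {u ^ 2}) u).natDegree ≤ 2 := by
    have := Polynomial.natDegree_le_of_dvd (minpoly.dvd _ u h0) hmon.ne_zero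
    rwa [Polynomial.natDegree_X_pow_sub_C] at this
  have h3 : 2 ≤ (minpoly (adjoin K {u ^ 2}) u).natDegree := by
    rw [minpoly.two_le_natDegree_iff hint]
    rintro ⟨y, hy⟩
    apply not_mem_sq hu
    have h5 : (y : L) ∈ adjoin K {u ^ 2} := y.2
    have h6 : (y : L) = u := hy
    rwa [h6] at h5
  rw [h1]
  omega

theorem exists_two {u v : L} (hu : Transcendental K u) (htop : adjoin K {u, v} = ⊤)
    (g : Polynomial (adjoin K {u})) (hg : g ≠ 0) (hgd : g.natDegree ≤ 2)
    (hv : Polynomial.aeval v g = 0) :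
    ∃ t : L, Transcendental K t ∧ Module.finrank (adjoin K {t}) L = 2 := by
  have hint : IsIntegral (adjoin K {u}) v := IsAlgebraic.isIntegral ⟨g, hg, hv⟩
  have htopF : adjoin (adjoin K {u}) {v} = ⊤ := by
    apply top_of
    rw [← htop]
    rfl
  have h1 : Module.finrank (adjoin K {u}) L = (minpoly (adjoin K {u}) v).natDegree := by
    rw [← IntermediateField.adjoin.finrank hint, htopF, finrank_top']
  have h2 : (minpoly (adjoin K {u}) v).natDegree ≤ 2 :=
    (Polynomial.natDegree_le_of_dvd (minpoly.dvd _ v hv) hg).trans hgd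
  have h3 : 0 < (minpoly (adjoin K {u}) v).natDegree := minpoly.natDegree_pos hint
  rcases (by omega : Module.finrank (adjoin K {u}) L = 1 ∨
    Module.finrank (adjoin K {u}) L = 2) with h | h
  · rw [finrank_eq_one_iff_eq_top] at h
    exact ⟨u ^ 2, hu.pow two_pos, deg_sq hu h⟩
  · exact ⟨u, hu, h⟩

/-- values of a form in two variables -/
theorem aeval_homog (Q : MvPolynomial (Fin 2) K) (i : ℕ) (hQ : Q.IsHomogeneous i) (a m : L) :
    aeval ![a, a * m] Q = a ^ i *
      Polynomial.aeval m (aeval (![1, Polynomial.X] : Fin 2 → Polynomial K) Q) := by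
  have h1 : Polynomial.aeval m (aeval (![1, Polynomial.X] : Fin 2 → Polynomial K) Q) =
      aeval ![1, m] Q := by
    have : (Polynomial.aeval m).comp (aeval (![1, Polynomial.X] : Fin 2 → Polynomial K)) =
        (aeval ![1, m] : MvPolynomial (Fin 2) K →ₐ[K] L) := by
      refine algHom_ext fun j => ?_
      rw [AlgHom.comp_apply, aeval_X, aeval_X]
      fin_cases j
      · exact map_one _
      · exact Polynomial.aeval_X _
    exact congrArg (fun f : MvPolynomial (Fin 2) K →ₐ[K] L => f Q) this
  rw [h1, aeval_def, aeval_def, eval₂_eq', eval₂_eq', Finset.mul_sum]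
  refine Finset.sum_congr rfl fun d hd => ?_
  have hdeg : d 0 + d 1 = i := by
    have h2 := hQ (mem_support_iff.1 hd)
    have h3 : Finsupp.weight (1 : Fin 2 → ℕ) d = d 0 + d 1 := by
      rw [Finsupp.weight_apply, Finsupp.sum_fintype _ _ (by simp), Fin.sum_univ_two]
      simp
    rw [← h2, h3]
  rw [Fin.prod_univ_two, Fin.prod_univ_two]
  change algebraMap K L (coeff d Q) * (a ^ d 0 * (a * m) ^ d 1) =
    a ^ i * (algebraMap K L (coeff d Q) * (1 ^ d 0 * m ^ d 1))
  rw [← hdeg]
  ring

/-- a nonzero form does not vanish on the line `X 0 = 1` -/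
theorem q_ne (Q : MvPolynomial (Fin 2) K) (i : ℕ) (hQ : Q.IsHomogeneous i) (h : Q ≠ 0) :
    aeval (![1, Polynomial.X] : Fin 2 → Polynomial K) Q ≠ 0 := by
  intro h0
  let M := FractionRing (MvPolynomial (Fin 2) K)
  have hinj : Function.Injective (algebraMap (MvPolynomial (Fin 2) K) M) :=
    IsFractionRing.injective _ _
  let a : M := algebraMap (MvPolynomial (Fin 2) K) M (X 0)
  let c : M := algebraMap (MvPolynomial (Fin 2) K) M (X 1)
  have ha : a ≠ 0 := by
    intro h1
    rw [← map_zero (algebraMap (MvPolynomial (Fin 2) K) M)] at h1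
    exact X_ne_zero _ (hinj h1)
  have h1 := aeval_homog Q i hQ a (c / a)
  rw [h0, map_zero, mul_zero, mul_div_cancel₀ _ ha] at h1
  have h2 : (aeval ![a, c] : MvPolynomial (Fin 2) K →ₐ[K] M) =
      IsScalarTower.toAlgHom K (MvPolynomial (Fin 2) K) M := by
    refine algHom_ext fun j => ?_
    rw [aeval_X]
    fin_cases j
    · rfl
    · rfl
  rw [h2] at h1
  apply h
  apply hinj
  rw [map_zero]
  exact h1

/-- the plane curve -/
theorem curve (Φ : MvPolynomial (Fin 2) K) (a c : L)
    (hΦ0 : homogeneousComponent 0 Φ = 0) (hΦ1 : homogeneousComponent 1 Φ = 0)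
    (hΦ2 : homogeneousComponent 2 Φ ≠ 0) (hd : Φ.totalDegree ≤ 4)
    (htop : adjoin K {a, c} = ⊤) (hΦ : aeval ![a, c] Φ = 0)
    (hna : ¬ (IsAlgebraic K a ∧ IsAlgebraic K c)) :
    ∃ t : L, Transcendental K t ∧ Module.finrank (adjoin K {t}) L = 2 := by
  by_cases ha : a = 0
  · have hc : Transcendental K c := by
      intro h
      exact hna ⟨ha ▸ isAlgebraic_zero, h⟩
    refine exists_two (u := c) (v := a) hc ?_ Polynomial.X Polynomial.X_ne_zero ?_ ?_
    · rw [Set.pair_comm]
      exact htop
    · rw [Polynomial.natDegree_X]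
      norm_num
    · rw [Polynomial.aeval_X, ha]
  have hm : a * (c / a) = c := mul_div_cancel₀ _ ha
  set m := c / a with hmdef
  have hsum : Φ = homogeneousComponent 2 Φ + homogeneousComponent 3 Φ +
      homogeneousComponent 4 Φ := by
    have h1 := sum_homogeneousComponent Φ
    have h2 : ∑ i ∈ Finset.range 5, homogeneousComponent i Φ = Φ := by
      conv_rhs => rw [← h1]
      symm
      apply Finset.sum_subset
      · intro x hx
        rw [Finset.mem_range] at hx ⊢
        omega
      · intro x _ hx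
        rw [Finset.mem_range] at hx
        exact homogeneousComponent_eq_zero _ _ (by omega)
    rw [Finset.sum_range_succ, Finset.sum_range_succ, Finset.sum_range_succ,
      Finset.sum_range_succ, Finset.sum_range_one, hΦ0, hΦ1, zero_add, zero_add] at h2
    exact h2.symm
  set q : ℕ → Polynomial K := fun i =>
    aeval (![1, Polynomial.X] : Fin 2 → Polynomial K) (homogeneousComponent i Φ) with hq
  have hrel : Polynomial.aeval m (q 2) + Polynomial.aeval m (q 3) * a +
      Polynomial.aeval m (q 4) * a ^ 2 = 0 := by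
    have h1 : ∀ i, aeval ![a, c] (homogeneousComponent i Φ) =
        a ^ i * Polynomial.aeval m (q i) := by
      intro i
      have := aeval_homog (homogeneousComponent i Φ) i
        (homogeneousComponent_isHomogeneous i Φ) a m
      rwa [hm] at this
    rw [hsum, map_add, map_add, h1, h1, h1] at hΦ
    have h2 : a ^ 2 * (Polynomial.aeval m (q 2) + Polynomial.aeval m (q 3) * a +
      Polynomial.aeval m (q 4) * a ^ 2) = 0 := by
      rw [← hΦ]
      ring
    exact (mul_eq_zero.1 h2).resolve_left (pow_ne_zero 2 ha)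
  have hq2 : q 2 ≠ 0 := q_ne _ 2 (homogeneousComponent_isHomogeneous 2 Φ) hΦ2
  have htop2 : adjoin K {a, m} = ⊤ := by
    rw [eq_top_iff, ← htop, adjoin_le_iff]
    rintro x (rfl | rfl)
    · exact subset_adjoin K _ (Set.mem_insert _ _)
    · rw [← hm]
      exact mul_mem (subset_adjoin K _ (Set.mem_insert _ _))
        (subset_adjoin K _ (Set.mem_insert_of_mem _ rfl))
  by_cases hma : IsAlgebraic K m
  · -- the slope is algebraic
    have hat : Transcendental K a := by
      intro h
      apply hna
      refine ⟨h, ?_⟩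
      rw [← hm]
      exact h.mul hma
    have hE : Algebra.IsAlgebraic K (adjoin K {m}) :=
      isAlgebraic_adjoin_simple hma.isIntegral
    have hat2 : ¬ IsAlgebraic (adjoin K {m}) a := fun h => hat (h.restrictScalars K)
    have hmm : m ∈ adjoin K {m} := mem_adjoin_simple_self K m
    have hev : ∀ p : Polynomial K, algebraMap (adjoin K {m}) L
        (Polynomial.aeval (⟨m, hmm⟩ : adjoin K {m}) p) = Polynomial.aeval m p := by
      intro p
      rw [← Polynomial.aeval_algebraMap_apply]
      rfl
    let G : Polynomial (adjoin K {m}) :=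
      Polynomial.C (Polynomial.aeval (⟨m, hmm⟩ : adjoin K {m}) (q 2)) +
      Polynomial.C (Polynomial.aeval (⟨m, hmm⟩ : adjoin K {m}) (q 3)) * Polynomial.X +
      Polynomial.C (Polynomial.aeval (⟨m, hmm⟩ : adjoin K {m}) (q 4)) * Polynomial.X ^ 2
    have hG : Polynomial.aeval a G = 0 := by
      change Polynomial.aeval a (_ + _ + _) = 0
      rw [map_add, map_add, map_mul, map_mul, map_pow, Polynomial.aeval_X, Polynomial.aeval_C,
        Polynomial.aeval_C, Polynomial.aeval_C, hev, hev, hev]
      exact hrel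
    have hG0 : G = 0 := by
      by_contra h
      exact hat2 ⟨G, h, hG⟩
    have h2 : Polynomial.aeval (⟨m, hmm⟩ : adjoin K {m}) (q 2) = 0 := by
      have h3 := congrArg (fun p => Polynomial.coeff p 0) hG0
      change Polynomial.coeff (_ + _ + _) 0 = Polynomial.coeff 0 0 at h3
      rw [Polynomial.coeff_add, Polynomial.coeff_add, Polynomial.coeff_C_zero,
        Polynomial.mul_coeff_zero, Polynomial.coeff_X_zero, mul_zero, Polynomial.mul_coeff_zero,
        Polynomial.coeff_X_pow, if_neg (by norm_num), mul_zero, add_zero, add_zero,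
        Polynomial.coeff_zero] at h3
      exact h3
    have h3 : Polynomial.aeval m (q 2) = 0 := by
      rw [← hev, h2, map_zero]
    refine exists_two (u := a) (v := m) hat htop2 ((q 2).map (algebraMap K (adjoin K {a}))) ?_ ?_ ?_
    · rw [Ne, Polynomial.map_eq_zero]
      exact hq2
    · rw [Polynomial.natDegree_map]
      have := aeval_natDegree_le (m := 2) (n := 1) (homogeneousComponent 2 Φ)
        (homogeneousComponent_isHomogeneous 2 Φ).totalDegree_le
        (![1, Polynomial.X] : Fin 2 → Polynomial K) (by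
          intro i
          fin_cases i
          · exact (Polynomial.natDegree_one).trans_le (Nat.zero_le _)
          · exact Polynomial.natDegree_X_le)
      exact this
    · rw [Polynomial.aeval_map_algebraMap]
      exact h3
  · -- the slope is transcendental
    have hmt : Transcendental K m := hma
    have hmm : m ∈ adjoin K {m} := mem_adjoin_simple_self K m
    have hev : ∀ p : Polynomial K, algebraMap (adjoin K {m}) L
        (Polynomial.aeval (⟨m, hmm⟩ : adjoin K {m}) p) = Polynomial.aeval m p := by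
      intro p
      rw [← Polynomial.aeval_algebraMap_apply]
      rfl
    refine exists_two (u := m) (v := a) hmt ?_
      (Polynomial.C (Polynomial.aeval (⟨m, hmm⟩ : adjoin K {m}) (q 2)) +
      Polynomial.C (Polynomial.aeval (⟨m, hmm⟩ : adjoin K {m}) (q 3)) * Polynomial.X +
      Polynomial.C (Polynomial.aeval (⟨m, hmm⟩ : adjoin K {m}) (q 4)) * Polynomial.X ^ 2) ?_ ?_ ?_
    · rw [Set.pair_comm]
      exact htop2
    · intro h
      have h3 := congrArg (fun p => Polynomial.coeff p 0) h
      change Polynomial.coeff (_ + _ + _) 0 = Polynomial.coeff 0 0 at h3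
      rw [Polynomial.coeff_add, Polynomial.coeff_add, Polynomial.coeff_C_zero,
        Polynomial.mul_coeff_zero, Polynomial.coeff_X_zero, mul_zero, Polynomial.mul_coeff_zero,
        Polynomial.coeff_X_pow, if_neg (by norm_num), mul_zero, add_zero, add_zero,
        Polynomial.coeff_zero] at h3
      have h4 := hev (q 2)
      rw [h3, map_zero] at h4
      exact hq2 ((transcendental_iff.1 hmt) _ h4.symm)
    · refine (Polynomial.natDegree_add_le _ _).trans (max_le ?_ ?_)
      · refine (Polynomial.natDegree_add_le _ _).trans (max_le ?_ ?_)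
        · rw [Polynomial.natDegree_C]
          exact Nat.zero_le _
        · exact (Polynomial.natDegree_C_mul_le _ _).trans (Polynomial.natDegree_X_le.trans one_le_two)
      · exact Polynomial.natDegree_C_mul_X_pow_le _ _
    · rw [map_add, map_add, map_mul, map_mul, map_pow, Polynomial.aeval_X, Polynomial.aeval_C,
        Polynomial.aeval_C, Polynomial.aeval_C, hev, hev, hev]
      exact hrel

end field

/-- a polynomial in two variables dividing nonzero polynomials in each of the variables -/
theorem const_of_dvd {K : Type} [Field K] {Ψ : MvPolynomial (Fin 2) K} (h0 : constantCoeff Ψ = 0)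
    (p r : Polynomial K) (hp : p ≠ 0) (hr : r ≠ 0)
    (h1 : Ψ ∣ Polynomial.aeval (X 0) p) (h2 : Ψ ∣ Polynomial.aeval (X 1) r) : False := by
  have key : ∀ (i j : Fin 2) (s : Polynomial K), i ≠ j → s ≠ 0 →
      Ψ ∣ Polynomial.aeval (X i) s → degreeOf j Ψ = 0 := by
    rintro i j s hij hs ⟨T, hT⟩
    have hne : (Polynomial.aeval (X i : MvPolynomial (Fin 2) K)) s ≠ 0 := by
      intro h
      have h3 : Transcendental K (X i : MvPolynomial (Fin 2) K) := transcendental_X K i
      exact hs ((transcendental_iff.1 h3) _ h)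
    have hΨ : Ψ ≠ 0 := by
      rintro rfl
      exact hne (by rw [hT, zero_mul])
    have hT0 : T ≠ 0 := by
      rintro rfl
      exact hne (by rw [hT, mul_zero])
    have hdeg : degreeOf j (Polynomial.aeval (X i : MvPolynomial (Fin 2) K) s) = 0 := by
      rw [Polynomial.aeval_eq_sum_range]
      apply Nat.le_zero.1
      refine (degreeOf_sum_le _ _ _).trans ?_
      apply Finset.sup_le
      intro n _
      rw [smul_eq_C_mul]
      refine (degreeOf_mul_le _ _ _).trans ?_
      rw [degreeOf_C, zero_add]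
      refine (degreeOf_pow_le _ _ _).trans ?_
      rw [degreeOf_X_of_ne hij.symm, mul_zero]
    rw [hT, degreeOf_mul_eq hΨ hT0] at hdeg
    omega
  have hΨ : Ψ ≠ 0 := by
    rintro rfl
    have h3 : Transcendental K (X 0 : MvPolynomial (Fin 2) K) := transcendental_X K 0
    exact hp ((transcendental_iff.1 h3) _ (zero_dvd_iff.1 h1))
  have hd1 := key 0 1 p (by decide) hp h1
  have hd0 := key 1 0 r (by decide) hr h2
  apply hΨ
  ext d
  rw [coeff_zero]
  by_contra hd
  have hsup := mem_support_iff.2 hd
  have h3 := monomial_le_degreeOf 0 hsup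
  have h4 := monomial_le_degreeOf 1 hsup
  rw [hd0] at h3
  rw [hd1] at h4
  have h5 : d = 0 := by
    ext i
    fin_cases i
    · exact Nat.le_zero.1 h3
    · exact Nat.le_zero.1 h4
  rw [h5] at hd
  exact hd h0

/-- TAN: the tangent plane section. -/
theorem tan : TanStmt := by
  intro K _ Φ h0 h1 h2 hd
  have hΦ0 : Φ ≠ 0 := by
    rintro rfl
    exact h2 (map_zero _)
  have hc0 : constantCoeff Φ = 0 := by
    rw [homogeneousComponent_zero, C_eq_zero] at h0
    exact h0
  have hnu : ¬ IsUnit Φ := by
    intro h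
    have := h.map (constantCoeff : MvPolynomial (Fin 2) K →+* K)
    rw [hc0] at this
    exact not_isUnit_zero this
  -- an irreducible factor through the origin
  obtain ⟨Ψ, hΨ, hΨΦ, hΨ0⟩ : ∃ Ψ : MvPolynomial (Fin 2) K, Irreducible Ψ ∧ Ψ ∣ Φ ∧
      constantCoeff Ψ = 0 := by
    obtain ⟨f, hf, hprod⟩ := UniqueFactorizationMonoid.exists_prime_factors Φ hΦ0
    by_contra hcon
    push Not at hcon
    have h3 : ∀ b ∈ f, constantCoeff b ≠ 0 := fun b hb =>
      hcon b (hf b hb).irreducible ((Multiset.dvd_prod hb).trans hprod.dvd)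
    have h4 : constantCoeff f.prod ≠ 0 := by
      rw [map_multiset_prod]
      intro h5
      rw [Multiset.prod_eq_zero_iff, Multiset.mem_map] at h5
      obtain ⟨b, hb, hb0⟩ := h5
      exact h3 b hb hb0
    obtain ⟨u, hu⟩ := hprod
    rw [← hu, map_mul] at hc0
    rcases mul_eq_zero.1 hc0 with h5 | h5
    · exact h4 h5
    · have := u.isUnit.map (constantCoeff : MvPolynomial (Fin 2) K →+* K)
      rw [h5] at this
      exact not_isUnit_zero this
  have hpr : (Ideal.span {Ψ} : Ideal (MvPolynomial (Fin 2) K)).IsPrime :=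
    (Ideal.span_singleton_prime hΨ.ne_zero).2 hΨ.prime
  let R := MvPolynomial (Fin 2) K ⧸ (Ideal.span {Ψ} : Ideal (MvPolynomial (Fin 2) K))
  let L := FractionRing R
  let φ : MvPolynomial (Fin 2) K →ₐ[K] L :=
    (IsScalarTower.toAlgHom K R L).comp (Ideal.Quotient.mkₐ K _)
  have hφ : ∀ P, φ P = 0 ↔ Ψ ∣ P := by
    intro P
    change algebraMap R L (Ideal.Quotient.mk _ P) = 0 ↔ _
    rw [map_eq_zero_iff _ (IsFractionRing.injective R L), Ideal.Quotient.eq_zero_iff_mem,
      Ideal.mem_span_singleton]
  have hae : aeval (fun i => φ (X i)) = φ := (aeval_unique φ).symm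
  have hrange : Set.range (fun i => φ (X i)) = {φ (X 0), φ (X 1)} := by
    ext y
    constructor
    · rintro ⟨i, rfl⟩
      fin_cases i
      · exact Or.inl rfl
      · exact Or.inr rfl
    · rintro (rfl | rfl)
      · exact ⟨0, rfl⟩
      · exact ⟨1, rfl⟩
  have htop : adjoin K (Set.range (fun i => φ (X i))) = ⊤ := by
    rw [eq_top_iff]
    intro y _
    have hmem : ∀ P : MvPolynomial (Fin 2) K, φ P ∈ adjoin K (Set.range (fun i => φ (X i))) := by
      intro P
      have h6 : φ P = aeval (fun i => φ (X i)) P :=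
        congrArg (fun f : MvPolynomial (Fin 2) K →ₐ[K] L => f P) hae.symm
      rw [h6]
      have h5 : aeval (fun i => φ (X i)) P ∈ Algebra.adjoin K (Set.range (fun i => φ (X i))) := by
        rw [Algebra.adjoin_range_eq_range_aeval]
        exact ⟨P, rfl⟩
      exact algebra_adjoin_le_adjoin K _ h5
    obtain ⟨r, s, _, hrs⟩ := IsFractionRing.div_surjective (A := R) y
    obtain ⟨r', rfl⟩ := Ideal.Quotient.mk_surjective r
    obtain ⟨s', rfl⟩ := Ideal.Quotient.mk_surjective s
    rw [← hrs]
    exact div_mem (hmem r') (hmem s')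
  have hcur := curve Φ (φ (X 0)) (φ (X 1)) h0 h1 h2 hd (by rw [← hrange]; exact htop) (by
    have h5 : (aeval ![φ (X 0), φ (X 1)] : MvPolynomial (Fin 2) K →ₐ[K] L) = φ := by
      refine Eq.trans ?_ hae
      congr 1
      funext i
      fin_cases i
      · rfl
      · rfl
    rw [h5, hφ]
    exact hΨΦ) (by
    rintro ⟨⟨p, hp, hpa⟩, ⟨r, hr, hra⟩⟩
    rw [Polynomial.aeval_algHom_apply, hφ] at hpa hra
    exact const_of_dvd hΨ0 p r hp hr hpa hra)
  obtain ⟨t, ht, htd⟩ := hcur
  refine ⟨L, inferInstance, inferInstance, fun i => φ (X i), t, ?_, htop, ?_, ht, htd⟩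
  · rw [hae, hφ]
    exact hΨΦ
  · intro P hP
    rw [hae, hφ] at hP
    obtain ⟨T, rfl⟩ := hP
    rw [map_mul, hΨ0, zero_mul]

end Pool.Agent.DDQ.H47T
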